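import Pool.Agent.Helper83.RK2.ThyDef

/-!
# Descent and vanishing for related pairs of admissible maps
-/

set_option autoImplicit false
set_option linter.unusedVariables false

open Set Metric Filter Topology

namespace Pool.Agent.Helper83.RK2

variable {Z H : Type} [TopologicalSpace Z] [AddCommGroup H] {g : H → Z → Z} {p : ℕ}

/-- Pairs of maps which are related on `Tp` and `Tm`. -/
def Rel (g : H → Z → Z) (Tp Tm : Set Z) (h : H) {E : Type} (C : Set Z) (P : Z → E × E) : Prop :=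
  (∀ x ∈ C, x ∈ Tp → (P x).2 = (P x).1) ∧ ∀ x ∈ C, x ∈ Tm → (P (g h x)).2 = (P x).1

namespace h38

theorem Cl.inter {C D : Set Z} (hC : Cl g C) (hD : Cl g D) : Cl g (C ∩ D) :=
  ⟨hC.1.inter hD.1, fun h x hx => ⟨hC.2 h x hx.1, hD.2 h x hx.2⟩⟩

theorem Cl.union {C D : Set Z} (hC : Cl g C) (hD : Cl g D) : Cl g (C ∪ D) :=
  ⟨hC.1.union hD.1, fun h x hx => hx.imp (hC.2 h x) (hD.2 h x)⟩

theorem Cl.empty : Cl g (∅ : Set Z) :=
  ⟨isClosed_empty, fun h x hx => absurd hx (notMem_empty x)⟩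

/-- Gluing: `Q` on `A` and `P` on `B`. -/
theorem adm_piecewise (𝒯 : Thy g p) {A B : Set Z} (hA : Cl g A) (hB : Cl g B)
    (hAB : 𝒯.W ⊆ A ∪ B) (hAW : A ⊆ 𝒯.W) (hBW : B ⊆ 𝒯.W) {P Q R : Z → 𝒯.E}
    (hP : 𝒯.Adm 𝒯.W P) (hQ : 𝒯.Adm 𝒯.W Q) (hQR : EqOn Q R A) (hPR : EqOn P R B) :
    𝒯.Adm 𝒯.W R := by
  have h1 : 𝒯.Adm (A ∪ B) R :=
    𝒯.union hA hB (𝒯.congr hA (𝒯.mono hQ hAW) hQR) (𝒯.congr hB (𝒯.mono hP hBW) hPR)
  exact 𝒯.mono h1 hAB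

end h38

open h38 in
/-- Step A -/
theorem Thy.descent (𝒯 : Thy g p) {Tp Tm W' : Set Z} (h : H) (hTp : Cl g Tp) (hTm : Cl g Tm)
    (hd : Disjoint Tp Tm) (hW' : Cl g W') (hW'W : W' ⊆ 𝒯.W) (hcov : 𝒯.W ⊆ W' ∪ (Tp ∪ Tm))
    {P Q : Z → 𝒯.E × 𝒯.E} (hP1 : 𝒯.Adm 𝒯.W (fun x => (P x).1)) (hP2 : 𝒯.Adm 𝒯.W (fun x => (P x).2))
    (hQ1 : 𝒯.Adm 𝒯.W (fun x => (Q x).1)) (hQ2 : 𝒯.Adm 𝒯.W (fun x => (Q x).2))
    (hP : Rel g Tp Tm h 𝒯.W P) (hQ : Rel g Tp Tm h 𝒯.W Q) (hPQ : EqOn P Q W') :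
    𝒯.δ (fun x => (P x).1) - 𝒯.δ (fun x => (P x).2) =
      𝒯.δ (fun x => (Q x).1) - 𝒯.δ (fun x => (Q x).2) := by
  classical
  have hTp' : Cl g (Tp ∩ 𝒯.W) := Cl.inter hTp 𝒯.hW
  have hTm' : Cl g (Tm ∩ 𝒯.W) := Cl.inter hTm 𝒯.hW
  set Bp : Set Z := W' ∪ (Tp ∩ 𝒯.W) with hBp
  set Bm : Set Z := W' ∪ (Tm ∩ 𝒯.W) with hBm
  have hBpc : Cl g Bp := Cl.union hW' hTp'
  have hBmc : Cl g Bm := Cl.union hW' hTm'
  have hBpW : Bp ⊆ 𝒯.W := union_subset hW'W inter_subset_right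
  have hBmW : Bm ⊆ 𝒯.W := union_subset hW'W inter_subset_right
  have hc1 : (Tm ∩ 𝒯.W) ∪ Bp = 𝒯.W := by
    apply Subset.antisymm (union_subset inter_subset_right hBpW)
    intro x hx
    rcases hcov hx with h1 | h1 | h1
    · exact Or.inr (Or.inl h1)
    · exact Or.inr (Or.inr ⟨h1, hx⟩)
    · exact Or.inl ⟨h1, hx⟩
  have hc2 : (Tp ∩ 𝒯.W) ∪ Bm = 𝒯.W := by
    apply Subset.antisymm (union_subset inter_subset_right hBmW)
    intro x hx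
    rcases hcov hx with h1 | h1 | h1
    · exact Or.inr (Or.inl h1)
    · exact Or.inl ⟨h1, hx⟩
    · exact Or.inr (Or.inr ⟨h1, hx⟩)
  set R : Z → 𝒯.E × 𝒯.E := fun x => if x ∈ Tm then Q x else P x with hR
  have hRm : ∀ x ∈ Tm, R x = Q x := fun x hx => by rw [hR]; exact if_pos hx
  have hRp : ∀ x ∈ Bp, R x = P x := by
    intro x hx
    by_cases hm : x ∈ Tm
    · rw [hRm x hm]
      rcases hx with h1 | h1
      · exact (hPQ h1).symm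
      · exact absurd hm (Set.disjoint_left.mp hd h1.1)
    · rw [hR]; exact if_neg hm
  have hR1 : 𝒯.Adm 𝒯.W (fun x => (R x).1) := by
    apply adm_piecewise 𝒯 hTm' hBpc hc1.ge inter_subset_right hBpW hP1 hQ1
    · intro x hx; simp only; rw [hRm x hx.1]
    · intro x hx; simp only; rw [hRp x hx]
  have hR2 : 𝒯.Adm 𝒯.W (fun x => (R x).2) := by
    apply adm_piecewise 𝒯 hTm' hBpc hc1.ge inter_subset_right hBpW hP2 hQ2
    · intro x hx; simp only; rw [hRm x hx.1]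
    · intro x hx; simp only; rw [hRp x hx]
  -- first replacement
  have e1 := 𝒯.d2 (C₁ := Tm ∩ 𝒯.W) (C₂ := Bp) (P := fun x => (P x).1) (P' := fun x => (R x).1)
    (Q := fun x => (P (g h x)).2) (Q' := fun x => (R (g h x)).2) hTm' hBpc hc1 hP1 hR1
    (𝒯.act (P := fun x => (P x).2) h 𝒯.hW Subset.rfl hP2)
    (𝒯.act (P := fun x => (R x).2) h 𝒯.hW Subset.rfl hR2)
    (fun x hx => by simp only; rw [hRp x hx])
    (fun x hx => by simp only; rw [hRp _ (hBpc.2 h x hx)])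
    (fun x hx => (hP.2 x hx.2 hx.1).symm)
    (fun x hx => by
      simp only
      rw [hRm x hx.1, hRm _ (hTm.2 h x hx.1)]
      exact (hQ.2 x hx.2 hx.1).symm)
  rw [𝒯.d1 (P := fun x => (R x).2) h hR2, 𝒯.d1 (P := fun x => (P x).2) h hP2] at e1
  -- second replacement
  have hRQ : ∀ x ∈ Bm, R x = Q x := by
    intro x hx
    rcases hx with h1 | h1
    · rw [hRp x (Or.inl h1)]; exact hPQ h1
    · exact hRm x h1.1
  have e2 := 𝒯.d2 (C₁ := Tp ∩ 𝒯.W) (C₂ := Bm) (P := fun x => (R x).1) (P' := fun x => (Q x).1)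
    (Q := fun x => (R x).2) (Q' := fun x => (Q x).2) hTp' hBmc hc2 hR1 hQ1 hR2 hQ2
    (fun x hx => by simp only; rw [hRQ x hx])
    (fun x hx => by simp only; rw [hRQ x hx])
    (fun x hx => by
      simp only
      rw [hRp x (Or.inr hx)]
      exact (hP.1 x hx.2 hx.1).symm)
    (fun x hx => (hQ.1 x hx.2 hx.1).symm)
  linarith

open h38 in
/-- Step B -/
theorem Thy.vanish [NeZero p] (𝒯 : Thy g p) {Tp Tm : Set Z} (h : H) (hTp : Cl g Tp)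
    (hTm : Cl g Tm) (hd : Disjoint Tp Tm) (hcov : 𝒯.W ⊆ Tp ∪ Tm) {P : Z → 𝒯.E × 𝒯.E}
    (hP1 : 𝒯.Adm 𝒯.W (fun x => (P x).1)) (hP2 : 𝒯.Adm 𝒯.W (fun x => (P x).2))
    (hP : Rel g Tp Tm h 𝒯.W P) :
    𝒯.δ (fun x => (P x).1) = 𝒯.δ (fun x => (P x).2) := by
  classical
  have hTp' : Cl g (Tp ∩ 𝒯.W) := Cl.inter hTp 𝒯.hW
  have hTm' : Cl g (Tm ∩ 𝒯.W) := Cl.inter hTm 𝒯.hW
  have hc : 𝒯.W ⊆ (Tm ∩ 𝒯.W) ∪ (Tp ∩ 𝒯.W) := by
    intro x hx
    rcases hcov hx with h1 | h1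
    · exact Or.inr ⟨h1, hx⟩
    · exact Or.inl ⟨h1, hx⟩
  set L : ℕ → Z → 𝒯.E := fun t x => if x ∈ Tm then (P (g (-(t • h)) x)).1 else (P x).1 with hL
  have hLm : ∀ t, ∀ x ∈ Tm, L t x = (P (g (-(t • h)) x)).1 := fun t x hx => by
    rw [hL]; exact if_pos hx
  have hLp : ∀ t, ∀ x ∈ Tp, L t x = (P x).1 := fun t x hx => by
    rw [hL]; exact if_neg (Set.disjoint_left.mp hd hx)
  have hLadm : ∀ t, 𝒯.Adm 𝒯.W (L t) := by
    intro t
    apply adm_piecewise 𝒯 hTm' hTp' hc inter_subset_right inter_subset_right hP1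
      (𝒯.act (P := fun x => (P x).1) (-(t • h)) 𝒯.hW Subset.rfl hP1)
    · intro x hx; exact (hLm t x hx.1).symm
    · intro x hx; exact (hLp t x hx.1).symm
  have hrel : ∀ t : ℕ, Rel g Tp Tm h 𝒯.W (fun x => (L t x, L (t + 1) x)) := by
    intro t
    refine ⟨fun x hx hxp => ?_, fun x hx hxm => ?_⟩
    · simp only
      rw [hLp t x hxp, hLp (t + 1) x hxp]
    · simp only
      rw [hLm t x hxm, hLm (t + 1) _ (hTm.2 h x hxm), ← 𝒯.gadd _ _ x hx]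
      congr 3
      rw [add_smul, one_smul]
      abel
  have hdiff : ∀ t : ℕ, 𝒯.δ (L t) - 𝒯.δ (L (t + 1)) = 𝒯.δ (L 0) - 𝒯.δ (L 1) := by
    intro t
    exact 𝒯.descent h hTp hTm hd Cl.empty (empty_subset _) (by rw [empty_union]; exact hcov)
      (P := fun x => (L t x, L (t + 1) x)) (Q := fun x => (L 0 x, L 1 x))
      (hLadm t) (hLadm (t + 1)) (hLadm 0) (hLadm 1) (hrel t) (hrel 0)
      (fun x hx => absurd hx (notMem_empty x))
  have htel : ∀ t : ℕ, 𝒯.δ (L 0) - 𝒯.δ (L t) = t * (𝒯.δ (L 0) - 𝒯.δ (L 1)) := by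
    intro t
    induction t with
    | zero => simp
    | succ t ih =>
      have h1 := hdiff t
      push_cast
      linarith
  obtain ⟨η', hη', hclose⟩ := 𝒯.d3 (hLadm 0) 1 one_pos
  have hev := 𝒯.d4 (P := fun x => (P x).1) (-h) hTm' inter_subset_right
    (𝒯.mono hP1 inter_subset_right) η' hη'
  obtain ⟨M, hM⟩ := hev.exists
  have hL0 : ∀ x ∈ 𝒯.W, L 0 x = (P x).1 := by
    intro x hx
    by_cases hm : x ∈ Tm
    · rw [hLm 0 x hm, zero_smul, neg_zero, 𝒯.g0 x hx]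
    · rw [hL]; exact if_neg hm
  obtain ⟨P', hP'a, hP'e, -, hP'd⟩ := hclose (C := 𝒯.W) (Q := L (p ^ M)) 𝒯.hW Subset.rfl
    (hLadm _) (fun x hx => by
      rw [hL0 x hx]
      rcases hcov hx with h1 | h1
      · rw [hLp _ x h1, dist_self]; exact hη'
      · rw [hLm _ x h1]
        have h2 := hM x ⟨h1, hx⟩
        simp only [smul_neg] at h2
        exact h2)
  have h3 : 𝒯.δ (L (p ^ M)) = 𝒯.δ (L 0) := by
    rw [← hP'd]
    exact 𝒯.d0 (hLadm _) (fun x hx => (hP'e hx).symm)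
  have h4 := htel (p ^ M)
  rw [h3, sub_self] at h4
  have hp0 : (((p ^ M : ℕ) : ℤ)) ≠ 0 := by
    exact_mod_cast pow_ne_zero M (NeZero.ne p)
  have h5 : 𝒯.δ (L 0) - 𝒯.δ (L 1) = 0 := by
    rcases mul_eq_zero.mp h4.symm with h6 | h6
    · exact absurd h6 hp0
    · exact h6
  have e0 : 𝒯.δ (fun x => (P x).1) = 𝒯.δ (L 0) :=
    𝒯.d0 hP1 (fun x hx => (hL0 x hx).symm)
  have e1 : 𝒯.δ (fun x => (P x).2) = 𝒯.δ (L 1) := by
    apply 𝒯.d0 hP2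
    intro x hx
    simp only
    rcases hcov hx with h1 | h1
    · rw [hLp 1 x h1]; exact hP.1 x hx h1
    · rw [hLm 1 x h1, one_smul]
      have hx' : g (-h) x ∈ 𝒯.W := 𝒯.hW.2 _ x hx
      have hx'm : g (-h) x ∈ Tm := hTm.2 _ x h1
      have h2 := hP.2 _ hx' hx'm
      rwa [← 𝒯.gadd _ _ x hx, add_neg_cancel, 𝒯.g0 x hx] at h2
  rw [e0, e1]
  linarith

end Pool.Agent.Helper83.RK2
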